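import Pool.Agent.Lib.P2a19di.Over

set_option autoImplicit false

namespace Pool.Agent.Results.MP_2a19db_al.IsometryGroups

open Module Pool.Agent.P2a19db Pool.Agent.P2a19di

/-- `Aut V`-pairs `(a, G)` for groups `G` of automorphisms of a finite-dimensional inner product space
over the real or complex numbers which contain many isometries. Let `a` be a nonzero singular
endomorphism of rank `r`.

1. If `G` consists of isometries and `(a, G)` is an `Aut V`-pair, then the product of the `r` nonzero
singular values of `a` is greater than one.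

2. If the isometries in `G` are transitive on the ordered orthonormal systems of `r` vectors, then
`(a, G)` is an `Aut V`-pair if and only if the product of the nonzero singular values of `a` is greater
than one or `G` contains an element which is not an isometry.

3. In particular the equivalence holds for every group `G` which contains all isometries of determinant
one. -/
theorem result {𝕜 V : Type*} [RCLike 𝕜] [NormedAddCommGroup V] [InnerProductSpace 𝕜 V]
    [FiniteDimensional 𝕜 V] (a : Module.End 𝕜 V) (ha : ¬ IsUnit a) (ha0 : a ≠ 0)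
    (G : Subgroup (V ≃ₗ[𝕜] V)) :
    ((∀ g ∈ G, ∀ v, ‖g v‖ = ‖v‖) → IsAutPair a G →
      1 < ∏ i ∈ Finset.range (finrank 𝕜 (LinearMap.range a)), a.singularValues i) ∧
    (FrameTrans (isom G) (finrank 𝕜 (LinearMap.range a)) →
      (IsAutPair a G ↔
        (1 < ∏ i ∈ Finset.range (finrank 𝕜 (LinearMap.range a)), a.singularValues i) ∨
          ∃ g ∈ G, ∃ v, ‖g v‖ ≠ ‖v‖)) ∧
    ((∀ g : V ≃ₗ[𝕜] V, (∀ v, ‖g v‖ = ‖v‖) → LinearMap.det (g : V →ₗ[𝕜] V) = 1 → g ∈ G) →
      (IsAutPair a G ↔
        (1 < ∏ i ∈ Finset.range (finrank 𝕜 (LinearMap.range a)), a.singularValues i) ∨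
          ∃ g ∈ G, ∃ v, ‖g v‖ ≠ ‖v‖)) :=
  ⟨fun hG => nec ha ha0 hG, fun hF => crit_over ha ha0 hF,
    fun h => crit_over ha ha0 (frameTrans_of_special (rank_lt ha) fun g hg hd => ⟨h g hg hd, hg⟩)⟩

end Pool.Agent.Results.MP_2a19db_al.IsometryGroups
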