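import Pool.Agent.Lib.P2a19ds.Fin

set_option autoImplicit false

namespace Pool.Agent.Results.MP_2a19db_al.SymplecticGroups

open Module Pool.Agent.P2a19db Pool.Agent.P2a19ds

/-- `Aut V`-pairs `(a, G)` for the groups `G` containing a symplectic group. Let `V` be a
finite-dimensional vector space over any field, `B` a nondegenerate alternating bilinear form on `V` and
`Sp B` its isometry group. Let `a` be a singular endomorphism of `V` and `G` any group of automorphisms
containing `Sp B`. Then `(a, G)` is an `Aut V`-pair if and only if `G` contains every automorphism of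
determinant one or the rank of `a` is `0`, `1` or `dim V - 1`. -/
theorem result {F V : Type*} [Field F] [AddCommGroup V] [Module F V] [FiniteDimensional F V]
    (B : LinearMap.BilinForm F V) (hB : B.Nondegenerate) (hA : B.IsAlt)
    (a : Module.End F V) (ha : ¬ IsUnit a) (G : Subgroup (V ≃ₗ[F] V)) (hG : Sp B ≤ G) :
    IsAutPair a G ↔
      (∀ g : V ≃ₗ[F] V, LinearMap.det (g : V →ₗ[F] V) = 1 → g ∈ G) ∨
        finrank F (LinearMap.range a) = 0 ∨ finrank F (LinearMap.range a) = 1 ∨
          finrank F (LinearMap.range a) + 1 = finrank F V :=
  symp hB hA ha hG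

end Pool.Agent.Results.MP_2a19db_al.SymplecticGroups
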